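import Pool.Agent.DPS.Stmts

/-!
# Squad DPS, row MAN
-/

set_option autoImplicit false

open Finset

namespace Pool.Agent.DPS.H83

open Pool.Agent.DPS

theorem y_mono {n k a b : ℕ} (hn : 2 * k ≤ n) (hab : a ≤ b) (hb : b ≤ k) : y n a ≤ y n b := by
  unfold y
  have h1 : (a : ℝ) ≤ b := by exact_mod_cast hab
  have h2 : (b : ℝ) ≤ k := by exact_mod_cast hb
  have h3 : (2 : ℝ) * k ≤ n := by exact_mod_cast hn
  have h4 : 0 ≤ ((b : ℝ) - a) * ((n : ℝ) + 1 - a - b) :=
    mul_nonneg (by linarith) (by linarith)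
  nlinarith

theorem eval_mp (n k r : ℕ) (x : ℝ) : (mp n k r).eval x =
    1 / (((k - r).factorial : ℝ)) ^ 2 * ∏ l ∈ Finset.Ioc r k, (y n l - x) := by
  unfold mp
  rw [Polynomial.eval_mul, Polynomial.eval_C, Polynomial.eval_prod]
  congr 1
  refine Finset.prod_congr rfl fun l _ => ?_
  simp

theorem nonneg {n k r j : ℕ} (hn : 2 * k ≤ n) (hj : j ≤ k) : 0 ≤ (mp n k r).eval (y n j) := by
  rw [eval_mp]
  refine mul_nonneg (by positivity) ?_
  rcases le_or_gt j r with h | h
  · refine Finset.prod_nonneg fun l hl => ?_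
    rw [Finset.mem_Ioc] at hl
    have := y_mono hn (show j ≤ l by omega) hl.2
    linarith
  · have h1 : ∏ l ∈ Finset.Ioc r k, (y n l - y n j) = 0 :=
      Finset.prod_eq_zero (Finset.mem_Ioc.2 ⟨h, hj⟩) (sub_self _)
    rw [h1]

theorem man : MANStmt := by
  intro n k r i j hn hr hij hj
  refine ⟨nonneg hn hj, ?_⟩
  rcases le_or_gt j r with h | h
  · rw [eval_mp, eval_mp]
    refine mul_le_mul_of_nonneg_left ?_ (by positivity)
    refine Finset.prod_le_prod (fun l hl => ?_) (fun l hl => ?_)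
    · rw [Finset.mem_Ioc] at hl
      have := y_mono hn (show j ≤ l by omega) hl.2
      linarith
    · have := y_mono hn hij hj
      linarith
  · have h1 : ∏ l ∈ Finset.Ioc r k, (y n l - y n j) = 0 :=
      Finset.prod_eq_zero (Finset.mem_Ioc.2 ⟨h, hj⟩) (sub_self _)
    rw [eval_mp n k r (y n j), h1, mul_zero]
    exact nonneg hn (hij.trans hj)

end Pool.Agent.DPS.H83
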